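import Pool.Agent.Helper53.SL.St

/-! # Project SL (MP_9062f4_nt), module SUP -/

set_option autoImplicit false

open Polynomial Filter Topology MeasureTheory Set

namespace Pool.Agent.Helper1.SL

open Pool.Agent.Helper53.SL

/-- sums over all factorizations of the numbers below `N` -/
theorem sum_anti_le (N : ℕ) (F : ℕ × ℕ → ℝ) (hF : ∀ x, 0 ≤ F x) :
    ∑ d ∈ Finset.Ico 1 N, ∑ x ∈ d.divisorsAntidiagonal, F x ≤
      ∑ x ∈ Finset.Ico 1 N ×ˢ Finset.Ico 1 N, F x := by
  rw [← Finset.sum_biUnion]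
  · apply Finset.sum_le_sum_of_subset_of_nonneg
    · intro x hx
      rw [Finset.mem_biUnion] at hx
      obtain ⟨d, hd, hx⟩ := hx
      rw [Finset.mem_Ico] at hd
      rw [Nat.mem_divisorsAntidiagonal] at hx
      obtain ⟨hx, hd0⟩ := hx
      have h1 : x.1 ≠ 0 := by rintro h; rw [h, zero_mul] at hx; exact hd0 hx.symm
      have h2 : x.2 ≠ 0 := by rintro h; rw [h, mul_zero] at hx; exact hd0 hx.symm
      have h3 : x.1 ≤ d := by rw [← hx]; exact Nat.le_mul_of_pos_right _ (Nat.pos_of_ne_zero h2)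
      have h4 : x.2 ≤ d := by rw [← hx]; exact Nat.le_mul_of_pos_left _ (Nat.pos_of_ne_zero h1)
      rw [Finset.mem_product, Finset.mem_Ico, Finset.mem_Ico]
      omega
    · intro x _ _
      exact hF x
  · intro d _ d' _ hne
    rw [Function.onFun, Finset.disjoint_left]
    intro x hx hx'
    rw [Nat.mem_divisorsAntidiagonal] at hx hx'
    exact hne (hx.1.symm.trans hx'.1)

/-- facts about the factorizations of `d` -/
theorem anti_facts {d : ℕ} {x : ℕ × ℕ} (hx : x ∈ d.divisorsAntidiagonal) :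
    1 ≤ x.1 ∧ 1 ≤ x.2 ∧ x.1 * x.2 = d ∧ x.1 ≤ d ∧ x.2 ≤ d := by
  rw [Nat.mem_divisorsAntidiagonal] at hx
  obtain ⟨hx, hd0⟩ := hx
  have h1 : x.1 ≠ 0 := by rintro h; rw [h, zero_mul] at hx; exact hd0 hx.symm
  have h2 : x.2 ≠ 0 := by rintro h; rw [h, mul_zero] at hx; exact hd0 hx.symm
  have h3 : x.1 ≤ d := by rw [← hx]; exact Nat.le_mul_of_pos_right _ (Nat.pos_of_ne_zero h2)
  have h4 : x.2 ≤ d := by rw [← hx]; exact Nat.le_mul_of_pos_left _ (Nat.pos_of_ne_zero h1)
  exact ⟨Nat.pos_of_ne_zero h1, Nat.pos_of_ne_zero h2, hx, h3, h4⟩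

/-- sums over the second factor -/
theorem sum_snd_le (d N : ℕ) (s : Finset (ℕ × ℕ)) (hs : s ⊆ d.divisorsAntidiagonal)
    (f : ℕ → ℝ) (hf : ∀ m, 0 ≤ f m) (hN : ∀ x ∈ s, x.2 < N) :
    ∑ x ∈ s, f x.2 ≤ ∑ m ∈ Finset.Ico 1 N, f m := by
  have hinj : Set.InjOn (fun x : ℕ × ℕ => x.2) (s : Set (ℕ × ℕ)) := by
    intro x hx y hy hxy
    obtain ⟨h1, h2, h3, -, -⟩ := anti_facts (hs hx)
    obtain ⟨-, -, h3', -, -⟩ := anti_facts (hs hy)
    simp only at hxy
    rw [← hxy, ← h3] at h3'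
    have h4 := Nat.eq_of_mul_eq_mul_right h2 h3'
    exact Prod.ext h4.symm hxy
  rw [← Finset.sum_image (f := f) (g := fun x : ℕ × ℕ => x.2) hinj]
  apply Finset.sum_le_sum_of_subset_of_nonneg
  · intro m hm
    rw [Finset.mem_image] at hm
    obtain ⟨x, hx, rfl⟩ := hm
    rw [Finset.mem_Ico]
    exact ⟨(anti_facts (hs hx)).2.1, hN x hx⟩
  · intro m _ _
    exact hf m

/-- sums over the first factor -/
theorem sum_fst_le (d k : ℕ) (s : Finset (ℕ × ℕ)) (hs : s ⊆ d.divisorsAntidiagonal)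
    (f : ℕ → ℝ) (hf : ∀ m, 0 ≤ f m) (hk : ∀ x ∈ s, k < x.1) :
    ∑ x ∈ s, f x.1 ≤ ∑ m ∈ Finset.Ioo k (d + 1), f m := by
  have hinj : Set.InjOn (fun x : ℕ × ℕ => x.1) (s : Set (ℕ × ℕ)) := by
    intro x hx y hy hxy
    obtain ⟨h1, h2, h3, -, -⟩ := anti_facts (hs hx)
    obtain ⟨-, -, h3', -, -⟩ := anti_facts (hs hy)
    simp only at hxy
    rw [← hxy, ← h3] at h3'
    have h4 := Nat.eq_of_mul_eq_mul_left h1 h3'
    exact Prod.ext hxy h4.symm
  rw [← Finset.sum_image (f := f) (g := fun x : ℕ × ℕ => x.1) hinj]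
  apply Finset.sum_le_sum_of_subset_of_nonneg
  · intro m hm
    rw [Finset.mem_image] at hm
    obtain ⟨x, hx, rfl⟩ := hm
    rw [Finset.mem_Ioo]
    have := (anti_facts (hs hx)).2.2.2.1
    exact ⟨hk x hx, by omega⟩
  · intro m _ _
    exact hf m

/-- module SUP -/
theorem hSup : StSup := by
  intro V
  obtain ⟨E, hE⟩ : ∃ E : ℕ, E = ⌈32 * V⌉₊ + 1 := ⟨_, rfl⟩
  obtain ⟨S, hS⟩ : ∃ S : ℝ, S = 8 * E * V := ⟨_, rfl⟩
  refine ⟨2 * V + 2 * (S * S), ?_⟩
  intro a v γ n1 ε hε H1 H2 H3 H4 H5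
  have hV : 0 ≤ V := by simpa using H2 0
  have hE1 : 1 ≤ E := by omega
  have hE32 : 32 * V ≤ E := by
    rw [hE]
    push_cast
    exact (Nat.le_ceil _).trans (by linarith)
  have hEpos : (0 : ℝ) < E := by exact_mod_cast hE1
  have hS0 : 0 ≤ S := by rw [hS]; positivity
  have H2' : ∀ N : ℕ, ∑ m ∈ Finset.Ico 1 N, v m ^ 2 ≤ V := by
    intro N
    refine le_trans ?_ (H2 N)
    apply Finset.sum_le_sum_of_subset_of_nonneg
    · intro m hm
      rw [Finset.mem_Ico] at hm
      rw [Finset.mem_Icc]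
      omega
    · intro m _ _
      positivity
  -- Moebius inversion
  have M1 := (ArithmeticFunction.sum_eq_iff_sum_mul_moebius_eq
    (f := fun d : ℕ => (d : ℝ) * a d) (g := fun n : ℕ => (n : ℝ) * (v n - γ n))).mp
      (fun n hn => H1 n hn)
  have hA : ∀ d : ℕ, 1 ≤ d → |(a d : ℝ)| ≤
      ∑ x ∈ d.divisorsAntidiagonal, |v x.2| / x.1 + ∑ x ∈ d.divisorsAntidiagonal, |γ x.2| / x.1 := by
    intro d hd
    have hd0 : (0 : ℝ) < d := by exact_mod_cast hd
    have h1 := M1 d hd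
    have h2 : |(d : ℝ) * a d| ≤ ∑ x ∈ d.divisorsAntidiagonal, (d : ℝ) * (|v x.2| / x.1 + |γ x.2| / x.1) := by
      rw [← h1]
      refine (Finset.abs_sum_le_sum_abs _ _).trans (Finset.sum_le_sum fun x hx => ?_)
      obtain ⟨h3, h4, h5, -, -⟩ := anti_facts hx
      have h6 : (0 : ℝ) < x.1 := by exact_mod_cast h3
      have h7 : (d : ℝ) = x.1 * x.2 := by rw [← h5]; push_cast; ring
      have h8 : |((ArithmeticFunction.moebius x.1 : ℤ) : ℝ)| ≤ 1 := by
        have := ArithmeticFunction.abs_moebius_le_one (n := x.1)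
        exact_mod_cast this
      rw [abs_mul, abs_mul, Nat.abs_cast]
      have h9 : (d : ℝ) * (|v x.2| / x.1 + |γ x.2| / x.1) = x.2 * (|v x.2| + |γ x.2|) := by
        rw [h7]
        field_simp
      rw [h9]
      have h10 : |v x.2 - γ x.2| ≤ |v x.2| + |γ x.2| := abs_sub _ _
      calc |((ArithmeticFunction.moebius x.1 : ℤ) : ℝ)| * (x.2 * |v x.2 - γ x.2|)
          ≤ 1 * (x.2 * |v x.2 - γ x.2|) := mul_le_mul_of_nonneg_right h8 (by positivity)
        _ = x.2 * |v x.2 - γ x.2| := one_mul _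
        _ ≤ x.2 * (|v x.2| + |γ x.2|) := mul_le_mul_of_nonneg_left h10 (by positivity)
    rw [← Finset.mul_sum, abs_mul, Nat.abs_cast, Finset.sum_add_distrib] at h2
    exact le_of_mul_le_mul_left h2 hd0
  -- the part of γ
  have hG : ∀ d : ℕ, 1 ≤ d → d < n1 → ∑ x ∈ d.divisorsAntidiagonal, |γ x.2| / x.1 ≤ 1 / 4 := by
    intro d hd hdn
    have h1 : ∀ x ∈ d.divisorsAntidiagonal, |γ x.2| / x.1 ≤
        (if x.1 = 1 then (1 / 8 : ℝ) else 0) + ε * ((x.1 : ℝ))⁻¹ := by
      intro x hx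
      obtain ⟨h3, h4, h5, h6, h7⟩ := anti_facts hx
      have h8 : (0 : ℝ) < x.1 := by exact_mod_cast h3
      by_cases h9 : x.1 = 1
      · rw [if_pos h9, h9]
        have h10 : x.2 = d := by rw [← h5, h9, one_mul]
        rw [h10]
        have := H3 d hd hdn
        push_cast
        have : 0 ≤ ε * (1 : ℝ)⁻¹ := by positivity
        linarith [H3 d hd hdn]
      · rw [if_neg h9, zero_add, div_eq_mul_inv]
        apply mul_le_mul_of_nonneg_right _ (by positivity)
        apply H4 x.2 d h4 _ hdn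
        rw [← h5]
        exact Nat.mul_le_mul_right _ (by omega)
    refine (Finset.sum_le_sum h1).trans ?_
    rw [Finset.sum_add_distrib]
    have h2 : ∑ x ∈ d.divisorsAntidiagonal, (if x.1 = 1 then (1 / 8 : ℝ) else 0) ≤ 1 / 8 := by
      refine (sum_fst_le d 0 _ (Finset.Subset.refl _) (fun m => if m = 1 then (1 / 8 : ℝ) else 0)
        (fun m => by positivity) (fun x hx => (anti_facts hx).1)).trans ?_
      rw [Finset.sum_ite_eq']
      split_ifs <;> norm_num
    have h3 : ∑ x ∈ d.divisorsAntidiagonal, ε * ((x.1 : ℝ))⁻¹ ≤ 1 / 8 := by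
      rw [← Finset.mul_sum]
      refine le_trans ?_ H5
      apply mul_le_mul_of_nonneg_left _ hε
      refine (sum_fst_le d 0 _ (Finset.Subset.refl _) (fun m => ((m : ℝ))⁻¹)
        (fun m => by positivity) (fun x hx => (anti_facts hx).1)).trans ?_
      have h4 : ∑ m ∈ Finset.Ioo 0 (d + 1), ((m : ℝ))⁻¹ = ((harmonic d : ℚ) : ℝ) := by
        rw [harmonic_eq_sum_Icc]
        push_cast
        apply Finset.sum_congr _ (fun _ _ => rfl)
        ext m
        rw [Finset.mem_Ioo, Finset.mem_Icc]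
        omega
      rw [h4]
      refine (harmonic_le_one_add_log d).trans ?_
      have h5 : Real.log d ≤ Real.log n1 :=
        Real.log_le_log (by exact_mod_cast hd) (by exact_mod_cast hdn.le)
      linarith
    linarith
  -- squares
  have hsq : ∀ (d k : ℕ) (s : Finset (ℕ × ℕ)), s ⊆ d.divisorsAntidiagonal → (∀ x ∈ s, k < x.1) →
      (∑ x ∈ s, |v x.2| / x.1) ^ 2 ≤ 2 / ((k : ℝ) + 1) * ∑ x ∈ s, v x.2 ^ 2 := by
    intro d k s hs hk
    have h1 : (∑ x ∈ s, |v x.2| / x.1) ^ 2 ≤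
        (∑ x ∈ s, (((x.1 : ℝ)) ^ 2)⁻¹) * ∑ x ∈ s, v x.2 ^ 2 := by
      apply Finset.sum_sq_le_sum_mul_sum_of_sq_le_mul
      · intro x _
        positivity
      · intro x _
        positivity
      · intro x _
        rw [div_pow, sq_abs, div_eq_mul_inv, mul_comm]
    refine h1.trans (mul_le_mul_of_nonneg_right ?_ (Finset.sum_nonneg fun x _ => by positivity))
    refine (sum_fst_le d k s hs (fun m => (((m : ℝ)) ^ 2)⁻¹) (fun m => by positivity) hk).trans ?_
    exact sum_Ioo_inv_sq_le k (d + 1)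
  -- the integers
  have hB : ∀ d : ℕ, 1 ≤ d → d < n1 → (a d : ℝ) ^ 2 ≤
      ∑ x ∈ d.divisorsAntidiagonal, (if x.1 < E then 8 * v x.2 ^ 2 else 0) := by
    intro d hd hdn
    obtain ⟨P, hP⟩ : ∃ P : ℝ, P = ∑ x ∈ d.divisorsAntidiagonal.filter (fun x => x.1 < E),
      |v x.2| / x.1 := ⟨_, rfl⟩
    obtain ⟨T, hT⟩ : ∃ T : ℝ, T = ∑ x ∈ d.divisorsAntidiagonal.filter (fun x => ¬ x.1 < E),
      |v x.2| / x.1 := ⟨_, rfl⟩
    have hP0 : 0 ≤ P := by rw [hP]; exact Finset.sum_nonneg fun x _ => by positivity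
    have hT0 : 0 ≤ T := by rw [hT]; exact Finset.sum_nonneg fun x _ => by positivity
    have h1 : |(a d : ℝ)| ≤ P + T + 1 / 4 := by
      refine (hA d hd).trans ?_
      rw [← Finset.sum_filter_add_sum_filter_not d.divisorsAntidiagonal (fun x => x.1 < E), ← hP,
        ← hT]
      linarith [hG d hd hdn]
    have h2 : T ≤ 1 / 4 := by
      have h3 := hsq d (E - 1) _ (Finset.filter_subset (fun x => ¬ x.1 < E) d.divisorsAntidiagonal)
        (by
          intro x hx
          rw [Finset.mem_filter] at hx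
          omega)
      rw [← hT] at h3
      have h4 : ∑ x ∈ d.divisorsAntidiagonal.filter (fun x => ¬ x.1 < E), v x.2 ^ 2 ≤ V := by
        refine (sum_snd_le d (d + 1) _ (Finset.filter_subset _ _) (fun m => v m ^ 2)
          (fun m => by positivity) ?_).trans (H2' (d + 1))
        intro x hx
        have := (anti_facts (Finset.filter_subset _ _ hx)).2.2.2.2
        omega
      have h5 : (((E - 1 : ℕ) : ℝ) + 1) = E := by
        rw [Nat.cast_sub hE1]
        push_cast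
        ring
      rw [h5] at h3
      have h6 : 2 / (E : ℝ) * ∑ x ∈ d.divisorsAntidiagonal.filter (fun x => ¬ x.1 < E), v x.2 ^ 2 ≤
          (1 / 4) ^ 2 := by
        calc 2 / (E : ℝ) * ∑ x ∈ d.divisorsAntidiagonal.filter (fun x => ¬ x.1 < E), v x.2 ^ 2
            ≤ 2 / (E : ℝ) * V := mul_le_mul_of_nonneg_left h4 (by positivity)
          _ ≤ (1 / 4) ^ 2 := by
            rw [div_mul_eq_mul_div, div_le_iff₀ hEpos]
            linarith
      exact abs_le_of_sq_le_sq' (h3.trans h6) (by norm_num) |>.2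
    have h3 : |(a d : ℝ)| ≤ 2 * P := by
      by_cases h0 : a d = 0
      · rw [h0]
        simp only [Int.cast_zero, abs_zero]
        linarith
      · have h4 : (1 : ℝ) ≤ |(a d : ℝ)| := by
          have := Int.one_le_abs h0
          exact_mod_cast this
        linarith
    have h4 : P ^ 2 ≤ 2 * ∑ x ∈ d.divisorsAntidiagonal.filter (fun x => x.1 < E), v x.2 ^ 2 := by
      have h5 := hsq d 0 _ (Finset.filter_subset (fun x => x.1 < E) d.divisorsAntidiagonal)
        (by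
          intro x hx
          exact (anti_facts (Finset.filter_subset _ _ hx)).1)
      rw [← hP] at h5
      simpa using h5
    have h5 : ∑ x ∈ d.divisorsAntidiagonal, (if x.1 < E then 8 * v x.2 ^ 2 else 0) =
        8 * ∑ x ∈ d.divisorsAntidiagonal.filter (fun x => x.1 < E), v x.2 ^ 2 := by
      rw [← Finset.sum_filter, Finset.mul_sum]
    rw [h5]
    calc (a d : ℝ) ^ 2 = |(a d : ℝ)| ^ 2 := (sq_abs _).symm
      _ ≤ (2 * P) ^ 2 := pow_le_pow_left₀ (abs_nonneg _) h3 2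
      _ = 4 * P ^ 2 := by ring
      _ ≤ 8 * ∑ x ∈ d.divisorsAntidiagonal.filter (fun x => x.1 < E), v x.2 ^ 2 := by linarith
  have hsumA : ∑ d ∈ Finset.Ico 1 n1, |(a d : ℝ)| ≤ S := by
    have h1 : ∀ d ∈ Finset.Ico 1 n1, |(a d : ℝ)| ≤
        ∑ x ∈ d.divisorsAntidiagonal, (if x.1 < E then 8 * v x.2 ^ 2 else 0) := by
      intro d hd
      rw [Finset.mem_Ico] at hd
      refine le_trans ?_ (hB d hd.1 hd.2)
      have h2 : |a d| ≤ (a d) ^ 2 := by
        rw [← sq_abs]
        by_cases h0 : a d = 0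
        · rw [h0]; simp
        · have := Int.one_le_abs h0
          nlinarith
      exact_mod_cast h2
    refine (Finset.sum_le_sum h1).trans ?_
    refine (sum_anti_le n1 (fun x => if x.1 < E then 8 * v x.2 ^ 2 else 0)
      (fun x => by positivity)).trans ?_
    rw [Finset.sum_product]
    have h2 : ∀ e ∈ Finset.Ico 1 n1, ∑ m ∈ Finset.Ico 1 n1, (if e < E then 8 * v m ^ 2 else 0) ≤
        if e < E then 8 * V else 0 := by
      intro e _
      split_ifs
      · rw [← Finset.mul_sum]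
        linarith [H2' n1]
      · simp
    refine (Finset.sum_le_sum h2).trans ?_
    rw [← Finset.sum_filter, Finset.sum_const, nsmul_eq_mul, hS]
    have h3 : ((Finset.Ico 1 n1).filter fun e => e < E).card ≤ E := by
      calc ((Finset.Ico 1 n1).filter fun e => e < E).card ≤ (Finset.range E).card := by
            apply Finset.card_le_card
            intro e he
            rw [Finset.mem_filter] at he
            exact Finset.mem_range.mpr he.2
        _ = E := Finset.card_range E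
    have h4 : (((Finset.Ico 1 n1).filter fun e => e < E).card : ℝ) ≤ E := by exact_mod_cast h3
    calc (((Finset.Ico 1 n1).filter fun e => e < E).card : ℝ) * (8 * V) ≤ E * (8 * V) :=
          mul_le_mul_of_nonneg_right h4 (by positivity)
      _ = 8 * E * V := by ring
  -- the last step
  have hR : ∀ n : ℕ, 1 ≤ n → n < 2 * n1 → ((a n : ℝ) + γ n) ^ 2 ≤ 2 * v n ^ 2 + 2 * (S *
      ∑ x ∈ n.divisorsAntidiagonal, (if 1 < x.1 ∧ x.2 < n1 then |(a x.2 : ℝ)| * (((x.1 : ℝ)) ^ 2)⁻¹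
        else 0)) := by
    intro n hn hn1
    have hn0 : (0 : ℝ) < n := by exact_mod_cast hn
    have hmem : (1, n) ∈ n.divisorsAntidiagonal := by
      rw [Nat.mem_divisorsAntidiagonal]
      exact ⟨one_mul n, by omega⟩
    have h1 : ∑ x ∈ n.divisorsAntidiagonal, (a x.2 : ℝ) / x.1 = v n - γ n := by
      have h2 := H1 n hn
      rw [← Nat.sum_divisorsAntidiagonal' (fun _ m => (m : ℝ) * a m)] at h2
      have h3 : ∑ x ∈ n.divisorsAntidiagonal, (x.2 : ℝ) * a x.2 =
          n * ∑ x ∈ n.divisorsAntidiagonal, (a x.2 : ℝ) / x.1 := by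
        rw [Finset.mul_sum]
        refine Finset.sum_congr rfl fun x hx => ?_
        obtain ⟨h3, h4, h5, -, -⟩ := anti_facts hx
        have h6 : (0 : ℝ) < x.1 := by exact_mod_cast h3
        have h7 : (n : ℝ) = x.1 * x.2 := by rw [← h5]; push_cast; ring
        rw [h7]
        field_simp
      rw [h3] at h2
      exact mul_left_cancel₀ hn0.ne' h2
    rw [← Finset.add_sum_erase _ _ hmem] at h1
    obtain ⟨r, hr⟩ : ∃ r : ℝ, r = ∑ x ∈ n.divisorsAntidiagonal.erase (1, n), (a x.2 : ℝ) / x.1 :=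
      ⟨_, rfl⟩
    rw [← hr] at h1
    simp only [Nat.cast_one, div_one] at h1
    have h2 : (a n : ℝ) + γ n = v n - r := by linarith
    have hx1 : ∀ x ∈ n.divisorsAntidiagonal.erase (1, n), 1 < x.1 ∧ x.2 < n1 := by
      intro x hx
      rw [Finset.mem_erase] at hx
      obtain ⟨h3, h4, h5, -, -⟩ := anti_facts hx.2
      have h6 : x.1 ≠ 1 := by
        intro h
        apply hx.1
        rw [h, one_mul] at h5
        exact Prod.ext h h5
      have h7 : 2 ≤ x.1 := by omega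
      have h8 : 2 * x.2 ≤ n := by rw [← h5]; exact Nat.mul_le_mul_right _ h7
      omega
    have h3 : r ^ 2 ≤ (∑ x ∈ n.divisorsAntidiagonal.erase (1, n), |(a x.2 : ℝ)|) *
        ∑ x ∈ n.divisorsAntidiagonal.erase (1, n), |(a x.2 : ℝ)| * (((x.1 : ℝ)) ^ 2)⁻¹ := by
      rw [hr]
      apply Finset.sum_sq_le_sum_mul_sum_of_sq_le_mul
      · intro x _
        positivity
      · intro x _
        positivity
      · intro x _
        rw [div_pow, ← sq_abs (a x.2 : ℝ), div_eq_mul_inv]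
        apply le_of_eq
        ring
    have h4 : ∑ x ∈ n.divisorsAntidiagonal.erase (1, n), |(a x.2 : ℝ)| ≤ S :=
      (sum_snd_le n n1 _ (Finset.erase_subset _ _) (fun m => |(a m : ℝ)|)
        (fun m => abs_nonneg _) (fun x hx => (hx1 x hx).2)).trans hsumA
    have h5 : ∑ x ∈ n.divisorsAntidiagonal.erase (1, n), |(a x.2 : ℝ)| * (((x.1 : ℝ)) ^ 2)⁻¹ ≤
        ∑ x ∈ n.divisorsAntidiagonal, (if 1 < x.1 ∧ x.2 < n1 then
          |(a x.2 : ℝ)| * (((x.1 : ℝ)) ^ 2)⁻¹ else 0) := by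
      have h6 : ∑ x ∈ n.divisorsAntidiagonal.erase (1, n), |(a x.2 : ℝ)| * (((x.1 : ℝ)) ^ 2)⁻¹ =
          ∑ x ∈ n.divisorsAntidiagonal.erase (1, n), (if 1 < x.1 ∧ x.2 < n1 then
            |(a x.2 : ℝ)| * (((x.1 : ℝ)) ^ 2)⁻¹ else 0) :=
        Finset.sum_congr rfl fun x hx => by rw [if_pos (hx1 x hx)]
      rw [h6]
      apply Finset.sum_le_sum_of_subset_of_nonneg (Finset.erase_subset _ _)
      intro x _ _
      positivity
    have h6 : r ^ 2 ≤ S * ∑ x ∈ n.divisorsAntidiagonal, (if 1 < x.1 ∧ x.2 < n1 then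
          |(a x.2 : ℝ)| * (((x.1 : ℝ)) ^ 2)⁻¹ else 0) :=
      h3.trans (mul_le_mul h4 h5 (Finset.sum_nonneg fun x _ => by positivity) hS0)
    rw [h2]
    nlinarith [sq_nonneg (v n + r)]
  refine (Finset.sum_le_sum fun n hn => hR n (Finset.mem_Ico.mp hn).1 (Finset.mem_Ico.mp hn).2).trans
    ?_
  rw [Finset.sum_add_distrib, ← Finset.mul_sum, ← Finset.mul_sum, ← Finset.mul_sum]
  have h1 := H2' (2 * n1)
  have h2 : ∑ n ∈ Finset.Ico 1 (2 * n1), ∑ x ∈ n.divisorsAntidiagonal,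
      (if 1 < x.1 ∧ x.2 < n1 then |(a x.2 : ℝ)| * (((x.1 : ℝ)) ^ 2)⁻¹ else 0) ≤ S := by
    refine (sum_anti_le (2 * n1) (fun x => if 1 < x.1 ∧ x.2 < n1 then
      |(a x.2 : ℝ)| * (((x.1 : ℝ)) ^ 2)⁻¹ else 0) (fun x => by positivity)).trans ?_
    rw [Finset.sum_product]
    have h3 : ∀ e ∈ Finset.Ico 1 (2 * n1), ∑ m ∈ Finset.Ico 1 (2 * n1),
        (if 1 < e ∧ m < n1 then |(a m : ℝ)| * (((e : ℝ)) ^ 2)⁻¹ else 0) ≤
        if 1 < e then S * (((e : ℝ)) ^ 2)⁻¹ else 0 := by
      intro e _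
      by_cases he : 1 < e
      · rw [if_pos he]
        have h4 : ∑ m ∈ Finset.Ico 1 (2 * n1),
            (if 1 < e ∧ m < n1 then |(a m : ℝ)| * (((e : ℝ)) ^ 2)⁻¹ else 0) =
            (∑ m ∈ (Finset.Ico 1 (2 * n1)).filter (fun m => m < n1), |(a m : ℝ)|) *
              (((e : ℝ)) ^ 2)⁻¹ := by
          rw [Finset.sum_mul, Finset.sum_filter]
          refine Finset.sum_congr rfl fun m _ => ?_
          simp [he]
        rw [h4]
        apply mul_le_mul_of_nonneg_right _ (by positivity)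
        refine le_trans ?_ hsumA
        apply Finset.sum_le_sum_of_subset_of_nonneg
        · intro m hm
          rw [Finset.mem_filter, Finset.mem_Ico] at hm
          rw [Finset.mem_Ico]
          exact ⟨hm.1.1, hm.2⟩
        · intro m _ _
          positivity
      · rw [if_neg he]
        apply le_of_eq
        apply Finset.sum_eq_zero
        intro m _
        simp [he]
    refine (Finset.sum_le_sum h3).trans ?_
    rw [← Finset.sum_filter, ← Finset.mul_sum]
    have h5 : ∑ e ∈ (Finset.Ico 1 (2 * n1)).filter (fun e => 1 < e), (((e : ℝ)) ^ 2)⁻¹ ≤ 1 := by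
      have h6 : (Finset.Ico 1 (2 * n1)).filter (fun e => 1 < e) = Finset.Ioo 1 (2 * n1) := by
        ext e
        rw [Finset.mem_filter, Finset.mem_Ico, Finset.mem_Ioo]
        omega
      rw [h6]
      refine (sum_Ioo_inv_sq_le 1 (2 * n1)).trans ?_
      norm_num
    calc S * ∑ e ∈ (Finset.Ico 1 (2 * n1)).filter (fun e => 1 < e), (((e : ℝ)) ^ 2)⁻¹ ≤ S * 1 :=
          mul_le_mul_of_nonneg_left h5 hS0
      _ = S := mul_one S
  have h3 := mul_le_mul_of_nonneg_left h2 hS0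
  linarith

end Pool.Agent.Helper1.SL
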